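import Mathlib

/-! If a bounded set is mapped into itself with a margin by a holomorphic map, then all its points
are attracted by attracting periodic points. -/

set_option autoImplicit false

open Filter Topology Metric Set

namespace Pool.Agent.Y334.NH

/-- Derivative of an iterate, one step at the end. -/
theorem deriv_iter_succ {f : ℂ → ℂ} (hf : Differentiable ℂ f) (k : ℕ) (y : ℂ) :
    deriv f^[k + 1] y = deriv f (f^[k] y) * deriv f^[k] y := by
  rw [Function.iterate_succ']
  exact deriv_comp y (hf _) ((hf.iterate k) y)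

/-- Contraction of the Caratheodory metric. -/
theorem carath {f : ℂ → ℂ} (hf : Differentiable ℂ f) {O : Set ℂ} (hO : IsOpen O) {R η : ℝ}
    (hR : 0 ≤ R) (hη : 0 < η) (hB : ∀ z ∈ O, ‖f z‖ ≤ R) (hm : ∀ z ∈ O, ball (f z) η ⊆ O)
    {y : ℂ} {r : ℝ} (hr : 0 < r) (hy : closedBall y r ⊆ O) (k : ℕ) :
    ∀ G : ℂ → ℂ, DifferentiableOn ℂ G O → (∀ z ∈ O, ‖G z‖ ≤ 1) →
      ‖deriv G (f^[k] y)‖ * ‖deriv f^[k] y‖ * (1 + η / (4 * (R + 1))) ^ k ≤ 1 / r := by
  have hyO : y ∈ O := hy (mem_closedBall_self hr.le)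
  have hmaps : ∀ z ∈ O, f z ∈ O := fun z hz => hm z hz (mem_ball_self hη)
  have hiter : ∀ k : ℕ, f^[k] y ∈ O := by
    intro k
    induction k with
    | zero => exact hyO
    | succ k ih => rw [Function.iterate_succ_apply']; exact hmaps _ ih
  induction k with
  | zero =>
    intro G hG hG1
    have h1 : ‖deriv G y‖ ≤ 1 / r := by
      apply Complex.norm_deriv_le_of_forall_mem_sphere_norm_le hr
      · apply DifferentiableOn.diffContOnCl
        rw [closure_ball y hr.ne']
        exact hG.mono hy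
      · intro z hz
        exact hG1 z (hy (sphere_subset_closedBall hz))
    simpa using h1
  | succ k ih =>
    intro G hG hG1
    set δ : ℝ := η / (4 * (R + 1)) with hδ
    have hδ0 : 0 < δ := by positivity
    set w : ℂ := f^[k] y with hw
    have hwO : w ∈ O := hiter k
    set g : ℂ → ℂ := fun u => f u + (δ : ℂ) * (f u - f w) with hg
    have hgO : ∀ u ∈ O, g u ∈ O := by
      intro u hu
      apply hm u hu
      rw [mem_ball, dist_eq_norm]
      have h1 : g u - f u = (δ : ℂ) * (f u - f w) := by simp [hg]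
      rw [h1, norm_mul, Complex.norm_real, Real.norm_eq_abs, abs_of_pos hδ0]
      have h2 : ‖f u - f w‖ ≤ 2 * R := by
        have := norm_sub_le (f u) (f w)
        have h3 := hB u hu
        have h4 := hB w hwO
        linarith
      calc δ * ‖f u - f w‖ ≤ δ * (2 * R) := by gcongr
        _ < δ * (4 * (R + 1)) := by
          apply mul_lt_mul_of_pos_left _ hδ0
          linarith
        _ = η := by rw [hδ]; field_simp
    have hgd : Differentiable ℂ g := by
      intro u
      exact (hf u).add (((hf u).sub (differentiableAt_const _)).const_mul _)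
    have hgw : g w = f w := by simp [hg]
    have hgw' : deriv g w = (1 + (δ : ℂ)) * deriv f w := by
      have h1 : HasDerivAt g (deriv f w + (δ : ℂ) * (deriv f w)) w := by
        have h2 := (hf w).hasDerivAt
        exact h2.add ((h2.sub_const (f w)).const_mul (δ : ℂ))
      rw [h1.deriv]; ring
    have h1 := ih (G ∘ g) (hG.comp hgd.differentiableOn hgO) (fun z hz => hG1 _ (hgO z hz))
    have h2 : deriv (G ∘ g) w = deriv G (f w) * ((1 + (δ : ℂ)) * deriv f w) := by
      rw [deriv_comp w, hgw, hgw']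
      · rw [hgw]
        exact hG.differentiableAt (hO.mem_nhds (hmaps w hwO))
      · exact hgd w
    rw [h2] at h1
    have h3 : ‖(1 + (δ : ℂ))‖ = 1 + δ := by
      have : (1 + (δ : ℂ)) = ((1 + δ : ℝ) : ℂ) := by push_cast; ring
      rw [this, Complex.norm_real, Real.norm_eq_abs, abs_of_pos (by linarith)]
    rw [norm_mul, norm_mul, h3] at h1
    rw [deriv_iter_succ hf k y, norm_mul, Function.iterate_succ_apply', ← hw]
    calc ‖deriv G (f w)‖ * (‖deriv f w‖ * ‖deriv f^[k] y‖) * (1 + δ) ^ (k + 1)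
        = ‖deriv G (f w)‖ * ((1 + δ) * ‖deriv f w‖) * ‖deriv f^[k] y‖ * (1 + δ) ^ k := by ring
      _ ≤ 1 / r := h1

/-- Points of a bounded set which is mapped into itself with a margin are attracted by sinks. -/
theorem attracted {f : ℂ → ℂ} (hf : Differentiable ℂ f) {B : Set ℂ} {R η : ℝ}
    (hη : 0 < η) (hB : ∀ z ∈ B, ‖z‖ ≤ R) (hm : ∀ z ∈ B, ball (f z) η ⊆ B) {z₀ : ℂ} (a₀ : ℕ)
    (hz₀ : f^[a₀] z₀ ∈ B) :
    ∃ n : ℕ, 0 < n ∧ ∃ x : ℂ, f^[n] x = x ∧ ‖deriv (f^[n]) x‖ < 1 ∧
      Tendsto (fun k : ℕ => f^[n * k] z₀) atTop (𝓝 x) := by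
  obtain ⟨z, hzd⟩ : ∃ z, z = f^[a₀] z₀ := ⟨_, rfl⟩
  have hz : z ∈ B := by rw [hzd]; exact hz₀
  have hR : 0 ≤ R := (norm_nonneg z).trans (hB z hz)
  set O : Set ℂ := interior B with hO
  have hOo : IsOpen O := isOpen_interior
  have hOB : O ⊆ B := interior_subset
  have hball : ∀ z ∈ B, ball (f z) η ⊆ O := fun z hz =>
    interior_maximal (hm z hz) isOpen_ball
  have hmB : ∀ z ∈ B, f z ∈ B := fun z hz => hm z hz (mem_ball_self hη)
  set q : ℝ := 1 + η / (4 * (R + 1)) with hq
  have hq1 : 1 < q := by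
    rw [hq]
    have : 0 < η / (4 * (R + 1)) := by positivity
    linarith
  -- the estimate of the derivative
  have hder : ∀ (r : ℝ) (y : ℂ), 0 < r → closedBall y r ⊆ O → ∀ k : ℕ,
      ‖deriv f^[k] y‖ ≤ (R + 1) / r / q ^ k := by
    intro r y hr hy k
    have h1 := carath hf hOo hR hη (fun z hz => hB _ (hmB z (hOB hz)))
      (fun z hz => hball z (hOB hz)) hr hy k (fun u => u / ((R + 1 : ℝ) : ℂ))
      ((differentiable_id.div_const _).differentiableOn) (by
        intro u hu
        rw [norm_div, Complex.norm_real, Real.norm_eq_abs, abs_of_pos (by linarith : (0:ℝ) < R + 1),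
          div_le_one (by linarith)]
        have := hB u (hOB hu)
        linarith)
    have h2 : deriv (fun u : ℂ => u / ((R + 1 : ℝ) : ℂ)) (f^[k] y) = 1 / ((R + 1 : ℝ) : ℂ) := by
      simp
    rw [h2, norm_div, norm_one, Complex.norm_real, Real.norm_eq_abs,
      abs_of_pos (by linarith : (0:ℝ) < R + 1), ← hq] at h1
    have hqk : 0 < q ^ k := by positivity
    have hR1 : (0:ℝ) < R + 1 := by linarith
    rw [div_div, le_div_iff₀ (by positivity)]
    have h3 : 1 / (R + 1) * ‖deriv f^[k] y‖ * q ^ k * ((R + 1) * r) ≤ 1 / r * ((R + 1) * r) := by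
      gcongr
    have h4 : 1 / (R + 1) * ‖deriv f^[k] y‖ * q ^ k * ((R + 1) * r) =
        ‖deriv f^[k] y‖ * (r * q ^ k) := by field_simp
    have h5 : 1 / r * ((R + 1) * r) = R + 1 := by field_simp
    rw [h4, h5] at h3
    exact h3
  -- the number of steps
  obtain ⟨m₀, hm₀⟩ : ∃ m₀ : ℕ, ∀ m ≥ m₀, (R + 1) / (η / 4) / q ^ m ≤ 1 / 4 := by
    have h1 : Tendsto (fun m : ℕ => (R + 1) / (η / 4) / q ^ m) atTop (𝓝 0) :=
      tendsto_const_nhds.div_atTop (tendsto_pow_atTop_atTop_of_one_lt hq1)
    obtain ⟨m₀, h2⟩ := eventually_atTop.1 (h1.eventually (ge_mem_nhds (by norm_num : (0:ℝ) < 1/4)))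
    exact ⟨m₀, fun m hm => h2 m hm⟩
  -- two close times
  set w : ℕ → ℂ := fun k => f^[k + 1] z with hw
  have hwB' : ∀ k, f^[k] z ∈ B := by
    intro k
    induction k with
    | zero => exact hz
    | succ k ih => rw [Function.iterate_succ_apply']; exact hmB _ ih
  have hwb : ∀ k, w k ∈ closedBall (0 : ℂ) R := by
    intro k
    rw [mem_closedBall_zero_iff]
    exact hB _ (hwB' _)
  obtain ⟨a, -, φ, hφ, hlim⟩ := tendsto_subseq_of_bounded isBounded_closedBall hwb
  have hη8 : 0 < η / 16 := by positivity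
  obtain ⟨N, hN⟩ := Metric.tendsto_atTop.1 hlim (η / 16) hη8
  set i : ℕ := φ N with hi
  set j : ℕ := φ (N + (m₀ + 1)) with hj
  have hij : i + (m₀ + 1) ≤ j := by
    have : ∀ t : ℕ, φ N + t ≤ φ (N + t) := by
      intro t
      induction t with
      | zero => simp
      | succ t ih =>
        have h1 : φ (N + t) < φ (N + (t + 1)) := hφ (by omega)
        omega
    exact this _
  have hclose : ‖w j - w i‖ < η / 8 := by
    have h1 := hN N le_rfl
    have h2 := hN (N + (m₀ + 1)) (by omega)
    have h3 := dist_triangle_right (w j) (w i) a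
    rw [dist_eq_norm] at h3
    simp only [Function.comp] at h1 h2
    rw [← hi] at h1
    rw [← hj] at h2
    linarith
  set m : ℕ := j - i with hmdef
  have hmm : m₀ + 1 ≤ m := by omega
  have hm1 : 0 < m := by omega
  have hwj : w j = f^[m] (w i) := by
    simp only [hw]
    rw [← Function.iterate_add_apply]
    congr 1
    omega
  -- the ball
  have hwi : ball (w i) η ⊆ O := by
    have h1 := hball _ (hwB' i)
    simp only [hw]
    rw [Function.iterate_succ_apply']
    exact h1
  have hlip : ∀ y ∈ closedBall (w i) (η / 2), ‖deriv f^[m] y‖ ≤ 1 / 4 := by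
    intro y hy
    refine (hder (η / 4) y (by positivity) ?_ m).trans (hm₀ m (by omega))
    intro u hu
    apply hwi
    rw [mem_closedBall] at hy hu
    rw [mem_ball]
    have := dist_triangle u y (w i)
    linarith
  set s : Set ℂ := closedBall (w i) (η / 4) with hs
  have hsd : s ⊆ closedBall (w i) (η / 2) := closedBall_subset_closedBall (by linarith)
  have hlipon : LipschitzOnWith (1 / 4) f^[m] s := by
    apply Convex.lipschitzOnWith_of_nnnorm_deriv_le (𝕜 := ℂ)
    · intro x _
      exact (hf.iterate m) x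
    · intro x hx
      have := hlip x (hsd hx)
      rw [← NNReal.coe_le_coe]
      simpa using this
    · exact convex_closedBall _ _
  have hwis : w i ∈ s := mem_closedBall_self (by positivity)
  have hmaps : MapsTo f^[m] s s := by
    intro y hy
    have h1 := hlipon.dist_le_mul y hy (w i) hwis
    rw [hs, mem_closedBall]
    rw [hs, mem_closedBall] at hy
    have h2 : dist (f^[m] (w i)) (w i) < η / 8 := by
      rw [← hwj, dist_eq_norm]; exact hclose
    have h3 := dist_triangle (f^[m] y) (f^[m] (w i)) (w i)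
    have h4 : ((1 / 4 : NNReal) : ℝ) = 1 / 4 := by simp
    rw [h4] at h1
    linarith
  have hcontr : ContractingWith (1 / 4) (hmaps.restrict f^[m] s s) := by
    refine ⟨by
      rw [← NNReal.coe_lt_coe]; norm_num, ?_⟩
    intro x y
    exact hlipon x.2 y.2
  obtain ⟨x, hxs, hxfix, hxlim, -⟩ := hcontr.exists_fixedPoint' isClosed_closedBall.isComplete hmaps
    hwis (edist_ne_top _ _)
  -- `x` is in the image of `B`
  have hxB : x ∈ B := hOB (hwi (by
    rw [mem_ball]; rw [hs, mem_closedBall] at hxs; linarith))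
  have hitB : ∀ (u : ℂ), u ∈ B → ∀ k, f^[k] u ∈ B := by
    intro u hu k
    induction k with
    | zero => exact hu
    | succ k ih => rw [Function.iterate_succ_apply']; exact hmB _ ih
  set r : ℕ := (m - 1) * (i + 1 + a₀) with hr
  have hri : (i + 1 + a₀) + r = m * (i + 1 + a₀) := by
    rw [hr]
    obtain ⟨m', hm'⟩ : ∃ m', m = m' + 1 := ⟨m - 1, by omega⟩
    rw [hm', Nat.add_sub_cancel]
    ring
  have hxfix' : f^[m] x = x := hxfix
  have hfixr : f^[m] (f^[r] x) = f^[r] x := by
    rw [← Function.iterate_add_apply, Nat.add_comm, Function.iterate_add_apply, hxfix']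
  refine ⟨m, hm1, f^[r] x, hfixr, ?_, ?_⟩
  · -- the multiplier
    have h1 : f^[r] x = f (f^[r + (m - 1)] x) := by
      rw [← Function.iterate_succ_apply' f, ← hfixr, ← Function.iterate_add_apply]
      congr 1
      omega
    have h2 : ball (f^[r] x) η ⊆ O := by
      rw [h1]
      exact hball _ (hitB x hxB _)
    have h3 := hder (η / 4) (f^[r] x) (by positivity) ((closedBall_subset_ball (by linarith)).trans h2) m
    have h4 := hm₀ m (by omega)
    linarith
  · -- convergence
    have h1 : Tendsto (fun k : ℕ => f^[r] ((f^[m])^[k] (w i))) atTop (𝓝 (f^[r] x)) :=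
      ((hf.iterate r).continuous.tendsto x).comp hxlim
    have h2 : ∀ k : ℕ, f^[r] ((f^[m])^[k] (w i)) = f^[m * (k + (i + 1 + a₀))] z₀ := by
      intro k
      rw [← Function.iterate_mul, ← Function.iterate_add_apply]
      simp only [hw]
      rw [hzd, ← Function.iterate_add_apply, ← Function.iterate_add_apply]
      congr 1
      rw [Nat.mul_add, ← hri]
      ring
    have h3 : Tendsto (fun k : ℕ => f^[m * (k + (i + 1 + a₀))] z₀) atTop (𝓝 (f^[r] x)) := by
      refine h1.congr h2
    exact (tendsto_add_atTop_iff_nat (f := fun k : ℕ => f^[m * k] z₀) (i + 1 + a₀)).1 h3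

end Pool.Agent.Y334.NH
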