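import Mathlib
import Pool.Agent.Y334.NH.Attr

/-! Compositions of lists of polynomials, iterated integrals over lists of kicks. -/

set_option autoImplicit false

open Filter Topology Metric Set Polynomial MeasureTheory
open scoped ENNReal

namespace Pool.Agent.Y334.NH

/-- the composition `F n ∘ ... ∘ F 1` of a list `[F 1, ..., F n]` of polynomials -/
noncomputable def compAll : List ℂ[X] → ℂ[X]
  | [] => X
  | F :: l => (compAll l).comp F

theorem eval_compAll_nil (z : ℂ) : (compAll []).eval z = z := by simp [compAll]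

theorem eval_compAll_cons (F : ℂ[X]) (l : List ℂ[X]) (z : ℂ) :
    (compAll (F :: l)).eval z = (compAll l).eval (F.eval z) := by simp [compAll, eval_comp]

theorem eval_compAll_append (l₁ l₂ : List ℂ[X]) (z : ℂ) :
    (compAll (l₁ ++ l₂)).eval z = (compAll l₂).eval ((compAll l₁).eval z) := by
  induction l₁ generalizing z with
  | nil => simp [eval_compAll_nil]
  | cons F l ih => rw [List.cons_append, eval_compAll_cons, eval_compAll_cons, ih]

theorem natDegree_compAll (l : List ℂ[X]) : (compAll l).natDegree = (l.map natDegree).prod := by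
  induction l with
  | nil => simp [compAll]
  | cons F l ih => rw [compAll, natDegree_comp, ih, List.map_cons, List.prod_cons, mul_comm]

/-- A critical point of the composition passes through a critical point of one of the factors. -/
theorem crit_split (l : List ℂ[X]) (z : ℂ) (h : (derivative (compAll l)).eval z = 0) :
    ∃ l₁ F l₂, l = l₁ ++ F :: l₂ ∧ (derivative F).eval ((compAll l₁).eval z) = 0 := by
  induction l generalizing z with
  | nil => simp [compAll] at h
  | cons F l ih =>
    rw [compAll, derivative_comp, eval_mul, eval_comp, mul_eq_zero] at h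
    rcases h with h | h
    · exact ⟨[], F, l, by simp, by rwa [eval_compAll_nil]⟩
    · obtain ⟨l₁, G, l₂, h1, h2⟩ := ih _ h
      exact ⟨F :: l₁, G, l₂, by rw [h1, List.cons_append], by rwa [eval_compAll_cons]⟩

/-- iterated integral over the lists of length `n` -/
noncomputable def EE (ν : Measure ℂ) : ℕ → (List ℂ → ℝ≥0∞) → ℝ≥0∞
  | 0, f => f []
  | n + 1, f => ∫⁻ s, EE ν n (fun l => f (s :: l)) ∂ν

theorem EE_mono {ν : Measure ℂ} {n : ℕ} {f g : List ℂ → ℝ≥0∞} (h : ∀ l, f l ≤ g l) :
    EE ν n f ≤ EE ν n g := by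
  induction n generalizing f g with
  | zero => exact h []
  | succ n ih => exact lintegral_mono fun s => ih fun l => h _

theorem EE_append {ν : Measure ℂ} (a b : ℕ) (f : List ℂ → ℝ≥0∞) :
    EE ν (a + b) f = EE ν a (fun l₁ => EE ν b (fun l₂ => f (l₁ ++ l₂))) := by
  induction a generalizing f with
  | zero => simp [EE]
  | succ a ih =>
    rw [Nat.succ_add]
    show (∫⁻ s, EE ν (a + b) (fun l => f (s :: l)) ∂ν) = _
    simp_rw [ih]
    rfl

theorem EE_congr {ν : Measure ℂ} {n : ℕ} {f g : List ℂ → ℝ≥0∞} (h : ∀ l, l.length = n → f l = g l) :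
    EE ν n f = EE ν n g := by
  induction n generalizing f g with
  | zero => exact h [] rfl
  | succ n ih =>
    show (∫⁻ s, EE ν n (fun l => f (s :: l)) ∂ν) = ∫⁻ s, EE ν n (fun l => g (s :: l)) ∂ν
    congr 1
    funext s
    exact ih fun l hl => h _ (by rw [List.length_cons, hl])

theorem lintegral_ofFn {ν : Measure ℂ} [SigmaFinite ν] (n : ℕ) (f : List ℂ → ℝ≥0∞)
    (hf : Measurable fun s : Fin n → ℂ => f (List.ofFn s)) :
    ∫⁻ s : Fin n → ℂ, f (List.ofFn s) ∂(Measure.pi fun _ => ν) = EE ν n f := by
  induction n generalizing f with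
  | zero =>
    have h1 : ∀ s : Fin 0 → ℂ, f (List.ofFn s) = f [] := fun s => by simp
    simp_rw [h1]
    rw [lintegral_const]
    simp [EE]
  | succ n ih =>
    have hmp := measurePreserving_piFinSuccAbove (fun _ : Fin (n + 1) => ν) 0
    have h1 : ∫⁻ s : Fin (n + 1) → ℂ, f (List.ofFn s) ∂(Measure.pi fun _ => ν) =
        ∫⁻ p : ℂ × (Fin n → ℂ), f (p.1 :: List.ofFn p.2) ∂(ν.prod (Measure.pi fun _ => ν)) := by
      rw [← (hmp.symm).lintegral_comp_emb (MeasurableEquiv.measurableEmbedding _)]
      congr 1
      funext p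
      congr 1
      rw [List.ofFn_succ]
      simp [MeasurableEquiv.piFinSuccAbove, Fin.insertNthEquiv]
    have hm : Measurable fun p : ℂ × (Fin n → ℂ) => f (p.1 :: List.ofFn p.2) := by
      have h2 : (fun p : ℂ × (Fin n → ℂ) => f (p.1 :: List.ofFn p.2)) =
          (fun s : Fin (n + 1) → ℂ => f (List.ofFn s)) ∘
            (fun p : ℂ × (Fin n → ℂ) => (Fin.cons p.1 p.2 : Fin (n + 1) → ℂ)) := by
        funext p
        simp [List.ofFn_succ]
      rw [h2]
      apply hf.comp
      apply measurable_pi_lambda
      intro i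
      refine Fin.cases ?_ (fun j => ?_) i
      · simpa using measurable_fst
      · simp only [Fin.cons_succ]
        exact (measurable_pi_apply j).comp measurable_snd
    rw [h1, lintegral_prod _ hm.aemeasurable]
    show _ = ∫⁻ s, EE ν n (fun l => f (s :: l)) ∂ν
    congr 1
    funext s
    exact ih (fun l => f (s :: l)) (hm.comp (measurable_const.prodMk measurable_id))

end Pool.Agent.Y334.NH
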