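import Mathlib
import Pool.Agent.Y334.NH.Word

/-! The noisy iteration of one polynomial: the trap, the killing probability. -/

set_option autoImplicit false

open Filter Topology Metric Set Polynomial MeasureTheory
open scoped ENNReal

namespace Pool.Agent.Y334.NH

/-- the position after the kicks `l`, from `z` -/
noncomputable def run (T : ℂ[X]) : List ℂ → ℂ → ℂ
  | [], z => z
  | s :: l, z => run T l (T.eval z + s)

theorem run_append (T : ℂ[X]) (l₁ l₂ : List ℂ) (z : ℂ) :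
    run T (l₁ ++ l₂) z = run T l₂ (run T l₁ z) := by
  induction l₁ generalizing z with
  | nil => rfl
  | cons s l ih => exact ih _

theorem run_eq (T : ℂ[X]) (l : List ℂ) (z : ℂ) :
    run T l z = (compAll (l.map fun s => T + C s)).eval z := by
  induction l generalizing z with
  | nil => simp [run, eval_compAll_nil]
  | cons s l ih =>
    rw [run, ih, List.map_cons, eval_compAll_cons]
    simp

/-- joint continuity -/
theorem run_cont (T : ℂ[X]) (n : ℕ) :
    Continuous fun p : ℂ × (Fin n → ℂ) => run T (List.ofFn p.2) p.1 := by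
  induction n with
  | zero => simpa [run] using continuous_fst
  | succ n ih =>
    have h1 : (fun p : ℂ × (Fin (n + 1) → ℂ) => run T (List.ofFn p.2) p.1) =
        (fun p : ℂ × (Fin n → ℂ) => run T (List.ofFn p.2) p.1) ∘
          (fun p : ℂ × (Fin (n + 1) → ℂ) => (T.eval p.1 + p.2 0, fun i : Fin n => p.2 i.succ)) := by
      funext p
      simp [List.ofFn_succ, run]
    rw [h1]
    apply ih.comp
    apply Continuous.prodMk
    · exact (T.continuous.comp continuous_fst).add ((continuous_apply 0).comp continuous_snd)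
    · exact continuous_pi fun i => (continuous_apply i.succ).comp continuous_snd

/-- the points all of whose noisy orbits stay in the disc of radius `R` -/
def BB (T : ℂ[X]) (ε R : ℝ) : Set ℂ :=
  {z | ∀ l : List ℂ, (∀ s ∈ l, ‖s‖ < ε) → ‖run T l z‖ ≤ R}

/-- the killed points -/
def Kl (T : ℂ[X]) (ε R : ℝ) : Set ℂ := BB T ε R ∪ {z | R < ‖z‖}

variable {T : ℂ[X]} {ε R : ℝ}

theorem run_cont_left (T : ℂ[X]) (l : List ℂ) : Continuous fun z => run T l z := by
  induction l with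
  | nil => exact continuous_id
  | cons s l ih => exact ih.comp (T.continuous.add continuous_const)

theorem BB_closed (T : ℂ[X]) (ε R : ℝ) : IsClosed (BB T ε R) := by
  have h1 : BB T ε R = ⋂ (l : List ℂ) (_ : ∀ s ∈ l, ‖s‖ < ε), {z | ‖run T l z‖ ≤ R} := by
    ext z; simp [BB]
  rw [h1]
  exact isClosed_iInter fun l => isClosed_iInter fun _ =>
    isClosed_le (run_cont_left T l).norm continuous_const

theorem BB_norm {z : ℂ} (hz : z ∈ BB T ε R) : ‖z‖ ≤ R := hz [] (by simp)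

theorem BB_step {z s : ℂ} (hz : z ∈ BB T ε R) (hs : ‖s‖ < ε) : T.eval z + s ∈ BB T ε R := by
  intro l hl
  exact hz (s :: l) (by simpa using ⟨hs, hl⟩)

theorem BB_run {l : List ℂ} (hl : ∀ s ∈ l, ‖s‖ < ε) {z : ℂ} (hz : z ∈ BB T ε R) :
    run T l z ∈ BB T ε R := by
  induction l generalizing z with
  | nil => exact hz
  | cons s l ih =>
    exact ih (fun t ht => hl t (List.mem_cons_of_mem _ ht)) (BB_step hz (hl s (List.mem_cons_self)))

theorem BB_ball {z : ℂ} (hz : z ∈ BB T ε R) : ball (T.eval z) ε ⊆ BB T ε R := by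
  intro w hw
  rw [mem_ball, dist_eq_norm] at hw
  have := BB_step hz hw
  rwa [add_sub_cancel] at this

/-- the escape radius -/
theorem exists_radius (T : ℂ[X]) (hT : 2 ≤ T.natDegree) (ε : ℝ) :
    ∃ R : ℝ, 1 ≤ R ∧ ∀ z s : ℂ, R ≤ ‖z‖ → ‖s‖ ≤ ε → 2 * ‖z‖ ≤ ‖T.eval z + s‖ := by
  have hdeg : 0 < (divX T).degree := by
    rw [← natDegree_pos_iff_degree_pos, natDegree_divX_eq_natDegree_tsub_one]
    omega
  have h1 : Tendsto (fun z : ℂ => ‖(divX T).eval z‖) (Bornology.cobounded ℂ) atTop :=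
    tendsto_norm_atTop (divX T) hdeg (z := fun z : ℂ => z) tendsto_norm_cobounded_atTop
  obtain ⟨R, hR⟩ := (Filter.HasBasis.eventually_iff (hasBasis_cobounded_norm)).1
    (h1.eventually (eventually_ge_atTop (3 : ℝ)))
  refine ⟨max R (max 1 (‖T.coeff 0‖ + ε)), (le_max_left _ _).trans (le_max_right _ _),
    fun z s hz hs => ?_⟩
  have h2 : R ≤ ‖z‖ := (le_max_left _ _).trans hz
  have h3 : ‖T.coeff 0‖ + ε ≤ ‖z‖ := ((le_max_right _ _).trans (le_max_right _ _)).trans hz
  have h4 : (3 : ℝ) ≤ ‖(divX T).eval z‖ := hR.2 h2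
  have h5 : T.eval z = (divX T).eval z * z + T.coeff 0 := by
    conv_lhs => rw [← divX_mul_X_add T]
    simp
  have h6 : ‖T.eval z + s‖ ≥ ‖(divX T).eval z * z‖ - ‖T.coeff 0‖ - ‖s‖ := by
    rw [h5]
    have e1 := norm_sub_norm_le ((divX T).eval z * z) (-(T.coeff 0 + s))
    rw [norm_neg, sub_neg_eq_add, ← add_assoc] at e1
    have e2 := norm_add_le (T.coeff 0) s
    linarith
  rw [norm_mul] at h6
  have h7 : 3 * ‖z‖ ≤ ‖(divX T).eval z‖ * ‖z‖ := by gcongr
  linarith

theorem Kl_step (hR1 : 1 ≤ R) (hR : ∀ z s : ℂ, R ≤ ‖z‖ → ‖s‖ ≤ ε → 2 * ‖z‖ ≤ ‖T.eval z + s‖)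
    {z s : ℂ} (hz : z ∈ Kl T ε R) (hs : ‖s‖ < ε) : T.eval z + s ∈ Kl T ε R := by
  rcases hz with hz | hz
  · exact Or.inl (BB_step hz hs)
  · right
    have hz' : R < ‖z‖ := hz
    have := hR z s hz'.le hs.le
    show R < ‖T.eval z + s‖
    linarith

theorem Kl_run (hR1 : 1 ≤ R) (hR : ∀ z s : ℂ, R ≤ ‖z‖ → ‖s‖ ≤ ε → 2 * ‖z‖ ≤ ‖T.eval z + s‖)
    {l : List ℂ} (hl : ∀ s ∈ l, ‖s‖ < ε) {z : ℂ} (hz : z ∈ Kl T ε R) :
    run T l z ∈ Kl T ε R := by
  induction l generalizing z with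
  | nil => exact hz
  | cons s l ih =>
    exact ih (fun t ht => hl t (List.mem_cons_of_mem _ ht))
      (Kl_step hR1 hR hz (hl s (List.mem_cons_self)))

theorem Kl_meas (T : ℂ[X]) (ε R : ℝ) : MeasurableSet (Kl T ε R) :=
  (BB_closed T ε R).measurableSet.union (measurableSet_lt measurable_const measurable_norm)

/-- uniform measure on the disc, not normalised -/
noncomputable def nu (ε : ℝ) : Measure ℂ := volume.restrict (ball 0 ε)

instance (ε : ℝ) : IsFiniteMeasure (nu ε) := by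
  refine ⟨?_⟩
  rw [nu, Measure.restrict_apply_univ]
  exact measure_ball_lt_top

/-- the total mass -/
noncomputable def mass (ε : ℝ) : ℝ≥0∞ := nu ε univ

theorem mass_ne_top (ε : ℝ) : mass ε ≠ ⊤ := measure_ne_top _ _

theorem mass_pos {ε : ℝ} (hε : 0 < ε) : mass ε ≠ 0 := by
  rw [mass, nu, Measure.restrict_apply_univ]
  exact (measure_ball_pos _ _ hε).ne'

/-- the probability (not normalised) to be alive after `n` kicks -/
noncomputable def Q (T : ℂ[X]) (ε R : ℝ) (n : ℕ) (z : ℂ) : ℝ≥0∞ :=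
  EE (nu ε) n (fun l => (Kl T ε R)ᶜ.indicator 1 (run T l z))

theorem ind_le (S : Set ℂ) (z : ℂ) : S.indicator (1 : ℂ → ℝ≥0∞) z ≤ 1 := by
  by_cases h : z ∈ S <;> simp [h]

theorem Q_zero (z : ℂ) : Q T ε R 0 z = (Kl T ε R)ᶜ.indicator 1 z := rfl

theorem Q_succ (n : ℕ) (z : ℂ) :
    Q T ε R (n + 1) z = ∫⁻ s, Q T ε R n (T.eval z + s) ∂(nu ε) := rfl

theorem ae_nu (ε : ℝ) : ∀ᵐ s ∂(nu ε), ‖s‖ < ε := by
  rw [nu, ae_restrict_iff' measurableSet_ball]
  exact Filter.Eventually.of_forall fun s hs => by simpa using hs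

theorem Q_killed (hR1 : 1 ≤ R) (hR : ∀ z s : ℂ, R ≤ ‖z‖ → ‖s‖ ≤ ε → 2 * ‖z‖ ≤ ‖T.eval z + s‖)
    (n : ℕ) {z : ℂ} (hz : z ∈ Kl T ε R) : Q T ε R n z = 0 := by
  induction n generalizing z with
  | zero => rw [Q_zero, indicator_of_notMem (by simpa using hz)]
  | succ n ih =>
    rw [Q_succ]
    have h1 : ∀ᵐ s ∂(nu ε), Q T ε R n (T.eval z + s) = 0 := by
      filter_upwards [ae_nu ε] with s hs
      exact ih (Kl_step hR1 hR hz hs)
    rw [lintegral_congr_ae h1]
    simp

/-- The alive mass is decreasing (relatively). -/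
theorem Q_anti (hR1 : 1 ≤ R) (hR : ∀ z s : ℂ, R ≤ ‖z‖ → ‖s‖ ≤ ε → 2 * ‖z‖ ≤ ‖T.eval z + s‖)
    (n : ℕ) (z : ℂ) : Q T ε R (n + 1) z ≤ mass ε * Q T ε R n z := by
  induction n generalizing z with
  | zero =>
    by_cases hz : z ∈ Kl T ε R
    · rw [Q_killed hR1 hR _ hz]; exact zero_le
    · rw [Q_zero, indicator_of_mem (by simpa using hz), Q_succ]
      simp only [Pi.one_apply, mul_one]
      calc ∫⁻ s, Q T ε R 0 (T.eval z + s) ∂(nu ε) ≤ ∫⁻ s, 1 ∂(nu ε) := by
            apply lintegral_mono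
            intro s
            exact ind_le _ _
        _ = mass ε := by rw [lintegral_one]; rfl
  | succ n ih =>
    rw [Q_succ]
    calc ∫⁻ s, Q T ε R (n + 1) (T.eval z + s) ∂(nu ε)
        ≤ ∫⁻ s, mass ε * Q T ε R n (T.eval z + s) ∂(nu ε) := lintegral_mono fun s => ih _
      _ = mass ε * Q T ε R (n + 1) z := by
        rw [lintegral_const_mul' _ _ (mass_ne_top ε), Q_succ]

/-- the relation with the product measure -/
theorem Q_meas (T : ℂ[X]) (ε R : ℝ) (n : ℕ) (z : ℂ) :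
    Q T ε R n z = (Measure.pi fun _ : Fin n => nu ε) {s | run T (List.ofFn s) z ∉ Kl T ε R} := by
  have hc : Continuous fun s : Fin n → ℂ => run T (List.ofFn s) z :=
    (run_cont T n).comp (continuous_const.prodMk continuous_id)
  have hm : MeasurableSet {s : Fin n → ℂ | run T (List.ofFn s) z ∉ Kl T ε R} :=
    (hc.measurable (Kl_meas T ε R)).compl
  have h1 : Measurable fun s : Fin n → ℂ =>
      (Kl T ε R)ᶜ.indicator (1 : ℂ → ℝ≥0∞) (run T (List.ofFn s) z) := by
    have : Measurable ((Kl T ε R)ᶜ.indicator (1 : ℂ → ℝ≥0∞)) :=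
      measurable_one.indicator (Kl_meas T ε R).compl
    exact this.comp hc.measurable
  rw [Q, ← lintegral_ofFn n _ h1, ← lintegral_indicator_one hm]
  congr 1

/-- local bound -/
theorem local_bound (hε : 0 < ε) (hR1 : 1 ≤ R)
    (hR : ∀ z s : ℂ, R ≤ ‖z‖ → ‖s‖ ≤ ε → 2 * ‖z‖ ≤ ‖T.eval z + s‖) (z₀ : ℂ) :
    ∃ W ∈ 𝓝 z₀, ∃ (N : ℕ) (c : ℝ≥0∞), c < 1 ∧ ∀ z ∈ W, Q T ε R N z ≤ c * mass ε ^ N := by
  -- an open set of kicks of positive measure which kill
  have key : ∃ W ∈ 𝓝 z₀, ∃ (N : ℕ) (U : Set (Fin N → ℂ)), IsOpen U ∧ U.Nonempty ∧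
      (∀ s ∈ U, ∀ i, ‖s i‖ < ε) ∧ ∀ z ∈ W, ∀ s ∈ U, run T (List.ofFn s) z ∈ Kl T ε R := by
    by_cases hz : z₀ ∈ BB T ε R
    · have h1 : ∀ᶠ z in 𝓝 z₀, ‖T.eval z - T.eval z₀‖ < ε / 2 := by
        have h0 : Continuous fun z : ℂ => ‖T.eval z - T.eval z₀‖ :=
          (T.continuous.sub continuous_const).norm
        have : Tendsto (fun z : ℂ => ‖T.eval z - T.eval z₀‖) (𝓝 z₀) (𝓝 0) := by
          simpa using h0.tendsto z₀
        exact this.eventually (gt_mem_nhds (by positivity))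
      refine ⟨_, h1, 1, ball 0 (ε / 2), isOpen_ball, ⟨0, mem_ball_self (by positivity)⟩, ?_, ?_⟩
      · intro s hs i
        rw [mem_ball_zero_iff, pi_norm_lt_iff (by positivity)] at hs
        linarith [hs i]
      · intro z hz' s hs
        rw [mem_ball_zero_iff, pi_norm_lt_iff (by positivity)] at hs
        left
        have h2 : run T (List.ofFn s) z = T.eval z + s 0 := by simp [run]
        rw [h2]
        apply BB_ball hz
        rw [mem_ball, dist_eq_norm]
        have h3 : ‖T.eval z + s 0 - T.eval z₀‖ ≤ ‖T.eval z - T.eval z₀‖ + ‖s 0‖ := by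
          have : T.eval z + s 0 - T.eval z₀ = (T.eval z - T.eval z₀) + s 0 := by ring
          rw [this]; exact norm_add_le _ _
        have h4 : ‖T.eval z - T.eval z₀‖ < ε / 2 := hz'
        linarith [hs 0]
    · simp only [BB, mem_ofPred_eq, not_forall, not_le] at hz
      obtain ⟨l, hl, hlR⟩ := hz
      set N := l.length with hN
      set s₀ : Fin N → ℂ := fun i => l.get i with hs₀
      have hof : List.ofFn s₀ = l := by rw [hs₀]; exact List.ofFn_get l
      have hopen : IsOpen {p : ℂ × (Fin N → ℂ) | R < ‖run T (List.ofFn p.2) p.1‖ ∧ ∀ i, ‖p.2 i‖ < ε} := by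
        apply IsOpen.inter
        · exact isOpen_lt continuous_const (run_cont T N).norm
        · have : {p : ℂ × (Fin N → ℂ) | ∀ i, ‖p.2 i‖ < ε} = ⋂ i, {p | ‖p.2 i‖ < ε} := by
            ext p; simp
          show IsOpen {p : ℂ × (Fin N → ℂ) | ∀ i, ‖p.2 i‖ < ε}
          rw [this]
          exact isOpen_iInter_of_finite fun i =>
            isOpen_lt ((continuous_apply i).comp continuous_snd).norm continuous_const
      have hmem : (z₀, s₀) ∈ {p : ℂ × (Fin N → ℂ) | R < ‖run T (List.ofFn p.2) p.1‖ ∧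
          ∀ i, ‖p.2 i‖ < ε} := by
        refine ⟨?_, fun i => ?_⟩
        · simp only [hof]; exact hlR
        · exact hl _ (List.get_mem l i)
      obtain ⟨W, U, hW, hU, hzW, hsU, hsub⟩ := isOpen_prod_iff.1 hopen z₀ s₀ hmem
      refine ⟨W, hW.mem_nhds hzW, N, U, hU, ⟨s₀, hsU⟩, ?_, ?_⟩
      · intro s hs
        exact (hsub (mk_mem_prod hzW hs)).2
      · intro z hz s hs
        exact Or.inr (hsub (mk_mem_prod hz hs)).1
  obtain ⟨W, hW, N, U, hU, hUne, hUε, hkill⟩ := key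
  set P : Measure (Fin N → ℂ) := Measure.pi fun _ : Fin N => nu ε with hP
  have hPuniv : P univ = mass ε ^ N := by
    rw [hP, Measure.pi_univ]
    simp [mass]
  have hPU : P U ≠ 0 := by
    have h1 : P = volume.restrict (univ.pi fun _ : Fin N => ball (0 : ℂ) ε) := by
      rw [hP, volume_pi, Measure.restrict_pi_pi]
      rfl
    rw [h1, Measure.restrict_apply hU.measurableSet]
    have h2 : U ∩ univ.pi (fun _ : Fin N => ball (0 : ℂ) ε) = U := by
      apply inter_eq_left.2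
      intro s hs i _
      simpa using hUε s hs i
    rw [h2]
    exact (hU.measure_pos _ hUne).ne'
  have hmN : mass ε ^ N ≠ ⊤ := ENNReal.pow_ne_top (mass_ne_top ε)
  have hmN0 : mass ε ^ N ≠ 0 := pow_ne_zero _ (mass_pos hε)
  refine ⟨W, hW, N, P Uᶜ / mass ε ^ N, ?_, ?_⟩
  · rw [ENNReal.div_lt_iff (Or.inl hmN0) (Or.inl hmN), one_mul, ← hPuniv]
    have h3 : P univ = P U + P Uᶜ := (measure_add_measure_compl hU.measurableSet).symm
    rw [h3]
    have h4 : P Uᶜ ≠ ⊤ := measure_ne_top _ _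
    rw [add_comm]
    exact ENNReal.lt_add_right h4 hPU
  · intro z hz
    rw [ENNReal.div_mul_cancel hmN0 hmN, Q_meas]
    apply measure_mono
    intro s hs hsU
    exact hs (hkill z hz s hsU)

/-- uniform bound -/
theorem uniform_bound (hε : 0 < ε) (hR1 : 1 ≤ R)
    (hR : ∀ z s : ℂ, R ≤ ‖z‖ → ‖s‖ ≤ ε → 2 * ‖z‖ ≤ ‖T.eval z + s‖) :
    ∃ (N : ℕ) (c : ℝ≥0∞), c < 1 ∧ ∀ z, Q T ε R N z ≤ c * mass ε ^ N := by
  have hmono : ∀ (N k : ℕ) (z : ℂ), Q T ε R (N + k) z ≤ mass ε ^ k * Q T ε R N z := by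
    intro N k
    induction k with
    | zero => intro z; simp
    | succ k ih =>
      intro z
      calc Q T ε R (N + (k + 1)) z ≤ mass ε * Q T ε R (N + k) z := Q_anti hR1 hR (N + k) z
        _ ≤ mass ε * (mass ε ^ k * Q T ε R N z) := by gcongr; exact ih z
        _ = mass ε ^ (k + 1) * Q T ε R N z := by rw [pow_succ]; ring
  have hcomp := isCompact_closedBall (0 : ℂ) R
  have key : ∃ (N : ℕ) (c : ℝ≥0∞), c < 1 ∧ ∀ z ∈ closedBall (0 : ℂ) R, ∀ k : ℕ,
      Q T ε R (N + k) z ≤ c * mass ε ^ (N + k) := by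
    apply hcomp.induction_on (p := fun S => ∃ (N : ℕ) (c : ℝ≥0∞), c < 1 ∧ ∀ z ∈ S, ∀ k : ℕ,
      Q T ε R (N + k) z ≤ c * mass ε ^ (N + k))
    · exact ⟨0, 0, by simp, by simp⟩
    · rintro s t hst ⟨N, c, hc, h⟩
      exact ⟨N, c, hc, fun z hz => h z (hst hz)⟩
    · rintro s t ⟨N₁, c₁, hc₁, h₁⟩ ⟨N₂, c₂, hc₂, h₂⟩
      refine ⟨N₁ + N₂, max c₁ c₂, max_lt hc₁ hc₂, ?_⟩
      rintro z (hz | hz) k
      · rw [add_assoc]
        refine (h₁ z hz (N₂ + k)).trans ?_
        gcongr; exact le_max_left _ _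
      · rw [add_comm N₁ N₂, add_assoc]
        refine (h₂ z hz (N₁ + k)).trans ?_
        gcongr; exact le_max_right _ _
    · intro z₀ _
      obtain ⟨W, hW, N, c, hc, h⟩ := local_bound hε hR1 hR z₀
      refine ⟨W, mem_nhdsWithin_of_mem_nhds hW, N, c, hc, fun z hz k => ?_⟩
      calc Q T ε R (N + k) z ≤ mass ε ^ k * Q T ε R N z := hmono N k z
        _ ≤ mass ε ^ k * (c * mass ε ^ N) := by gcongr; exact h z hz
        _ = c * mass ε ^ (N + k) := by rw [pow_add]; ring
  obtain ⟨N, c, hc, h⟩ := key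
  refine ⟨N, c, hc, fun z => ?_⟩
  by_cases hz : z ∈ closedBall (0 : ℂ) R
  · simpa using h z hz 0
  · rw [Q_killed hR1 hR N (Or.inr (by simpa using hz))]
    exact zero_le

/-- exponential bound -/
theorem exp_bound (hε : 0 < ε) (hR1 : 1 ≤ R)
    (hR : ∀ z s : ℂ, R ≤ ‖z‖ → ‖s‖ ≤ ε → 2 * ‖z‖ ≤ ‖T.eval z + s‖) :
    ∃ K θ : ℝ, 0 < K ∧ 0 < θ ∧ θ < 1 ∧ ∀ (n : ℕ) (z : ℂ),
      Q T ε R n z ≤ ENNReal.ofReal (K * θ ^ n) * mass ε ^ n := by
  obtain ⟨N, c, hc, h⟩ := uniform_bound hε hR1 hR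
  -- a positive real constant
  obtain ⟨c', hc'0, hc'1, hcc'⟩ : ∃ c' : ℝ, 0 < c' ∧ c' < 1 ∧ c ≤ ENNReal.ofReal c' := by
    refine ⟨max c.toReal (1 / 2), by positivity, ?_, ?_⟩
    · apply max_lt
      · rw [← ENNReal.toReal_one]
        exact (ENNReal.toReal_lt_toReal hc.ne_top ENNReal.one_ne_top).2 hc
      · norm_num
    · rw [← ENNReal.ofReal_toReal hc.ne_top]
      apply ENNReal.ofReal_le_ofReal
      rw [ENNReal.ofReal_toReal hc.ne_top]
      exact le_max_left _ _
  have hm0 := mass_pos hε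
  have hmt := mass_ne_top ε
  have hN : 1 ≤ N := by
    by_contra hN
    have hN0 : N = 0 := by omega
    subst hN0
    by_cases hK : ∃ z, z ∉ Kl T ε R
    · obtain ⟨z, hz⟩ := hK
      have := h z
      rw [Q_zero, indicator_of_mem (by simpa using hz)] at this
      simp only [Pi.one_apply, pow_zero, mul_one] at this
      exact absurd (this.trans_lt hc) (lt_irrefl _)
    · push Not at hK
      -- the ball must be contained in the trap: then the orbit of a big point would not escape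
      obtain ⟨x, hx⟩ : ∃ x : ℂ, ‖x‖ = R := ⟨(R : ℂ), by
        rw [Complex.norm_real, Real.norm_eq_abs, abs_of_pos (by linarith)]⟩
      rcases hK x with h1 | h1
      · have h2 := BB_norm (BB_step h1 (s := 0) (by simpa using hε))
        have h3 := hR x 0 hx.ge (by simpa using hε.le)
        rw [hx] at h3
        linarith
      · have : R < ‖x‖ := h1
        linarith
  have hstep : ∀ (n : ℕ) (z : ℂ), Q T ε R (n + N) z ≤ ENNReal.ofReal c' * mass ε ^ N * Q T ε R n z := by
    intro n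
    induction n with
    | zero =>
      intro z
      rw [Nat.zero_add]
      by_cases hz : z ∈ Kl T ε R
      · rw [Q_killed hR1 hR _ hz]; exact zero_le
      · rw [Q_zero, indicator_of_mem (by simpa using hz)]
        simp only [Pi.one_apply, mul_one]
        refine (h z).trans ?_
        gcongr
    | succ n ih =>
      intro z
      have e1 : n + 1 + N = (n + N) + 1 := by ring
      rw [e1, Q_succ]
      calc ∫⁻ s, Q T ε R (n + N) (T.eval z + s) ∂(nu ε)
          ≤ ∫⁻ s, ENNReal.ofReal c' * mass ε ^ N * Q T ε R n (T.eval z + s) ∂(nu ε) :=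
            lintegral_mono fun s => ih _
        _ = ENNReal.ofReal c' * mass ε ^ N * Q T ε R (n + 1) z := by
          rw [lintegral_const_mul' _ _ (ENNReal.mul_ne_top ENNReal.ofReal_ne_top
            (ENNReal.pow_ne_top hmt)), Q_succ]
  have hle : ∀ (n : ℕ) (z : ℂ), Q T ε R n z ≤ mass ε ^ n := by
    intro n
    induction n with
    | zero => intro z; rw [Q_zero]; simpa using ind_le _ z
    | succ n ih =>
      intro z
      calc Q T ε R (n + 1) z ≤ mass ε * Q T ε R n z := Q_anti hR1 hR n z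
        _ ≤ mass ε * mass ε ^ n := by gcongr; exact ih z
        _ = mass ε ^ (n + 1) := by rw [pow_succ]; ring
  have hblock : ∀ (k r : ℕ) (z : ℂ), Q T ε R (r + k * N) z ≤
      ENNReal.ofReal (c' ^ k) * mass ε ^ (r + k * N) := by
    intro k
    induction k with
    | zero => intro r z; simpa using hle r z
    | succ k ih =>
      intro r z
      have e1 : r + (k + 1) * N = (r + k * N) + N := by ring
      rw [e1]
      calc Q T ε R (r + k * N + N) z
          ≤ ENNReal.ofReal c' * mass ε ^ N * Q T ε R (r + k * N) z := hstep _ z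
        _ ≤ ENNReal.ofReal c' * mass ε ^ N * (ENNReal.ofReal (c' ^ k) * mass ε ^ (r + k * N)) := by
          gcongr; exact ih r z
        _ = ENNReal.ofReal c' * ENNReal.ofReal (c' ^ k) * mass ε ^ (r + k * N + N) := by
          rw [pow_add (mass ε) (r + k * N) N]; ring
        _ = ENNReal.ofReal (c' ^ (k + 1)) * mass ε ^ (r + k * N + N) := by
          rw [← ENNReal.ofReal_mul hc'0.le]
          congr 2
          ring
  -- the rate
  have hNR : (0 : ℝ) < N := by exact_mod_cast hN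
  refine ⟨c'⁻¹, c' ^ (1 / (N : ℝ)), by positivity, by positivity, ?_, fun n z => ?_⟩
  · exact Real.rpow_lt_one hc'0.le hc'1 (by positivity)
  · have h1 := hblock (n / N) (n % N) z
    have e1 : n % N + n / N * N = n := by rw [mul_comm]; exact Nat.mod_add_div n N
    rw [e1] at h1
    refine h1.trans ?_
    gcongr
    rw [← Real.rpow_natCast (c' ^ (1 / (N : ℝ))) n, ← Real.rpow_mul hc'0.le, ← Real.rpow_natCast c',
      ← Real.rpow_neg_one c', ← Real.rpow_add hc'0]
    apply Real.rpow_le_rpow_of_exponent_ge hc'0 hc'1.le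
    have h2 : (n : ℝ) < ((n / N : ℕ) + 1 : ℝ) * N := by
      have := Nat.lt_div_mul_add (a := n) (b := N) hN
      have h3 : n < (n / N + 1) * N := by linarith
      exact_mod_cast h3
    have h3 : (n : ℝ) / N < (n / N : ℕ) + 1 := by rw [div_lt_iff₀ hNR]; exact h2
    have h4 : 1 / (N : ℝ) * n = n / N := by ring
    rw [h4]
    linarith

end Pool.Agent.Y334.NH
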