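import Mathlib
import Pool.Agent.Y334.NH.Kill

/-! Random perturbations of the factors: the composition is hyperbolic outside an exponentially
small proportion of the kicks. -/

set_option autoImplicit false

open Filter Topology Metric Set Polynomial MeasureTheory
open scoped ENNReal

namespace Pool.Agent.Y334.NH

/-- escape -/
def Esc (S : ℂ[X]) (z : ℂ) : Prop := Tendsto (fun k : ℕ => ‖(fun w : ℂ => S.eval w)^[k] z‖) atTop atTop

/-- attraction by a sink -/
def Att (S : ℂ[X]) (z : ℂ) : Prop :=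
  ∃ n : ℕ, 0 < n ∧ ∃ x : ℂ, (fun w : ℂ => S.eval w)^[n] x = x ∧
    ‖deriv ((fun w : ℂ => S.eval w)^[n]) x‖ < 1 ∧
    Tendsto (fun k : ℕ => (fun w : ℂ => S.eval w)^[n * k] z) atTop (𝓝 x)

/-- the composition -/
noncomputable def pert (T : ℂ[X]) (l : List ℂ) : ℂ[X] := compAll (l.map fun s => T + C s)

theorem run_pert (T : ℂ[X]) (l : List ℂ) (z : ℂ) : (pert T l).eval z = run T l z := (run_eq T l z).symm

variable {T : ℂ[X]} {ε R : ℝ}

theorem big_run (hR1 : 1 ≤ R) (hR : ∀ z s : ℂ, R ≤ ‖z‖ → ‖s‖ ≤ ε → 2 * ‖z‖ ≤ ‖T.eval z + s‖)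
    {l : List ℂ} (hl : ∀ s ∈ l, ‖s‖ < ε) (hne : l ≠ []) {z : ℂ} (hz : R < ‖z‖) :
    2 * ‖z‖ ≤ ‖run T l z‖ := by
  induction l generalizing z with
  | nil => exact absurd rfl hne
  | cons s l ih =>
    have h1 := hR z s hz.le (hl s (List.mem_cons_self)).le
    rcases eq_or_ne l [] with h | h
    · subst h; simpa [run] using h1
    · have h2 := ih (fun t ht => hl t (List.mem_cons_of_mem _ ht)) h (z := T.eval z + s) (by linarith)
      show 2 * ‖z‖ ≤ ‖run T l (T.eval z + s)‖
      linarith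

theorem esc_of_big (hR1 : 1 ≤ R) (hR : ∀ z s : ℂ, R ≤ ‖z‖ → ‖s‖ ≤ ε → 2 * ‖z‖ ≤ ‖T.eval z + s‖)
    {l : List ℂ} (hl : ∀ s ∈ l, ‖s‖ < ε) (hne : l ≠ []) {z : ℂ} (a : ℕ)
    (hz : R < ‖(fun w : ℂ => (pert T l).eval w)^[a] z‖) : Esc (pert T l) z := by
  set f : ℂ → ℂ := fun w : ℂ => (pert T l).eval w with hf
  have h1 : ∀ k : ℕ, R < ‖f^[k] (f^[a] z)‖ ∧ 2 ^ k * R ≤ ‖f^[k] (f^[a] z)‖ := by
    intro k
    induction k with
    | zero => exact ⟨hz, by simpa using hz.le⟩
    | succ k ih =>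
      rw [Function.iterate_succ_apply']
      have h2 : 2 * ‖f^[k] (f^[a] z)‖ ≤ ‖f (f^[k] (f^[a] z))‖ := by
        have := big_run hR1 hR hl hne ih.1
        rw [← run_pert] at this
        exact this
      constructor
      · have := ih.1; linarith
      · rw [pow_succ]; nlinarith [ih.2]
  have h2 : Tendsto (fun k : ℕ => (2 : ℝ) ^ k * R) atTop atTop :=
    (tendsto_pow_atTop_atTop_of_one_lt one_lt_two).atTop_mul_const (by linarith)
  have h3 : Tendsto (fun k : ℕ => ‖f^[k] (f^[a] z)‖) atTop atTop :=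
    tendsto_atTop_mono (fun k => (h1 k).2) h2
  have h4 : Tendsto (fun k : ℕ => ‖f^[k + a] z‖) atTop atTop := by
    refine h3.congr fun k => ?_
    rw [Function.iterate_add_apply]
  exact (tendsto_add_atTop_iff_nat (f := fun k : ℕ => ‖f^[k] z‖) a).1 h4

theorem margin {l : List ℂ} (hl : ∀ s ∈ l, ‖s‖ < ε) (hne : l ≠ []) :
    ∃ η : ℝ, 0 < η ∧ ∀ z ∈ BB T ε R, ball ((pert T l).eval z) η ⊆ BB T ε R := by
  obtain ⟨l', s, rfl⟩ : ∃ l' s, l = l' ++ [s] := ⟨l.dropLast, l.getLast hne,
    (List.dropLast_append_getLast hne).symm⟩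
  have hs : ‖s‖ < ε := hl s (by simp)
  refine ⟨ε - ‖s‖, by linarith, fun z hz => ?_⟩
  have h1 : (pert T (l' ++ [s])).eval z = T.eval (run T l' z) + s := by
    rw [run_pert, run_append]; rfl
  have h2 : run T l' z ∈ BB T ε R := BB_run (fun t ht => hl t (by simp [ht])) hz
  refine Subset.trans ?_ (BB_ball h2)
  rw [h1]
  intro w hw
  rw [mem_ball, dist_eq_norm] at hw ⊢
  have h3 : w - T.eval (run T l' z) = (w - (T.eval (run T l' z) + s)) + s := by ring
  rw [h3]
  exact (norm_add_le _ _).trans_lt (by linarith)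

/-- no sink in the plane -/
def NoSink (T : ℂ[X]) : Prop :=
  ∀ (n : ℕ) (x : ℂ), 0 < n → (fun w : ℂ => T.eval w)^[n] x = x →
    1 ≤ ‖deriv ((fun w : ℂ => T.eval w)^[n]) x‖

theorem BB_empty (hε : 0 < ε) (h : NoSink T) (z : ℂ) : z ∉ BB T ε R := by
  intro hz
  obtain ⟨n, hn, x, h1, h2, -⟩ := attracted (f := fun w : ℂ => T.eval w) T.differentiable hε
    (fun w hw => BB_norm hw) (fun w hw => BB_ball hw) 0 (z₀ := z) hz
  exact absurd h2 (not_lt.2 (h n x hn h1))

/-- The deterministic part. -/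
theorem det (hε : 0 < ε) (hR1 : 1 ≤ R)
    (hR : ∀ z s : ℂ, R ≤ ‖z‖ → ‖s‖ ≤ ε → 2 * ‖z‖ ≤ ‖T.eval z + s‖) (l : List ℂ)
    (hl : ∀ s ∈ l, ‖s‖ < ε)
    (hgood : ∀ j < l.length, ∀ w : ℂ, (derivative T).eval w = 0 →
      run T (l.take j) (run T (l.drop j) w) ∈ Kl T ε R) :
    (∀ c : ℂ, (derivative (pert T l)).eval c = 0 → Esc (pert T l) c ∨ Att (pert T l) c) ∧
    (NoSink T → ∀ c : ℂ, (derivative (pert T l)).eval c = 0 → Esc (pert T l) c) := by
  have key : ∀ c : ℂ, (derivative (pert T l)).eval c = 0 → l ≠ [] ∧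
      (fun w : ℂ => (pert T l).eval w)^[2] c ∈ Kl T ε R := by
    intro c hc
    obtain ⟨L₁, F, L₂, h1, h2⟩ := crit_split _ c hc
    obtain ⟨l₁, l', rfl, h3, h4⟩ := List.map_eq_append_iff.1 h1
    obtain ⟨s, l₂, rfl, h5, h6⟩ := List.map_eq_cons_iff.1 h4
    refine ⟨by simp, ?_⟩
    have h7 : (derivative T).eval (run T l₁ c) = 0 := by
      rw [← h5, ← h3] at h2
      have : derivative (T + C s) = derivative T := by simp
      rw [this] at h2
      rwa [run_eq]
    have h8 := hgood l₁.length (by simp) _ h7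
    rw [List.take_left', List.drop_left'] at h8
    rotate_left
    · rfl
    · rfl
    have h9 : ∀ y, (pert T (l₁ ++ s :: l₂)).eval y = run T (s :: l₂) (run T l₁ y) := by
      intro y
      rw [run_pert, run_append]
    show (pert T (l₁ ++ s :: l₂)).eval ((pert T (l₁ ++ s :: l₂)).eval c) ∈ Kl T ε R
    rw [h9, h9 c]
    exact Kl_run hR1 hR (fun t ht => hl t (List.mem_append_right _ ht)) h8
  constructor
  · intro c hc
    obtain ⟨hne, h1⟩ := key c hc
    rcases h1 with h1 | h1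
    · right
      obtain ⟨η, hη, hm⟩ := margin (T := T) (R := R) hl hne
      exact attracted (f := fun w : ℂ => (pert T l).eval w) (pert T l).differentiable hη
        (fun w hw => BB_norm hw) hm 2 h1
    · exact Or.inl (esc_of_big hR1 hR hl hne 2 h1)
  · intro hno c hc
    obtain ⟨hne, h1⟩ := key c hc
    rcases h1 with h1 | h1
    · exact absurd h1 (BB_empty hε hno _)
    · exact esc_of_big hR1 hR hl hne 2 h1

theorem cont_take (T : ℂ[X]) (n : ℕ) : ∀ j : ℕ,
    Continuous fun p : ℂ × (Fin n → ℂ) => run T ((List.ofFn p.2).take j) p.1 := by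
  induction n with
  | zero => intro j; simpa [run] using continuous_fst
  | succ n ih =>
    intro j
    cases j with
    | zero => simpa [run] using continuous_fst
    | succ j =>
      have h1 : (fun p : ℂ × (Fin (n + 1) → ℂ) => run T ((List.ofFn p.2).take (j + 1)) p.1) =
          (fun p : ℂ × (Fin n → ℂ) => run T ((List.ofFn p.2).take j) p.1) ∘
            (fun p : ℂ × (Fin (n + 1) → ℂ) => (T.eval p.1 + p.2 0, fun i : Fin n => p.2 i.succ)) := by
        funext p
        simp [List.ofFn_succ, run]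
      rw [h1]
      apply (ih j).comp
      apply Continuous.prodMk
      · exact (T.continuous.comp continuous_fst).add ((continuous_apply 0).comp continuous_snd)
      · exact continuous_pi fun i => (continuous_apply i.succ).comp continuous_snd

theorem cont_drop (T : ℂ[X]) (n : ℕ) : ∀ j : ℕ,
    Continuous fun p : ℂ × (Fin n → ℂ) => run T ((List.ofFn p.2).drop j) p.1 := by
  induction n with
  | zero => intro j; simpa [run] using continuous_fst
  | succ n ih =>
    intro j
    cases j with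
    | zero => simpa using run_cont T (n + 1)
    | succ j =>
      have h1 : (fun p : ℂ × (Fin (n + 1) → ℂ) => run T ((List.ofFn p.2).drop (j + 1)) p.1) =
          (fun p : ℂ × (Fin n → ℂ) => run T ((List.ofFn p.2).drop j) p.1) ∘
            (fun p : ℂ × (Fin (n + 1) → ℂ) => (p.1, fun i : Fin n => p.2 i.succ)) := by
        funext p
        simp [List.ofFn_succ]
      rw [h1]
      apply (ih j).comp
      apply Continuous.prodMk
      · exact continuous_fst
      · exact continuous_pi fun i => (continuous_apply i.succ).comp continuous_snd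

/-- Tonelli for iterated integrals over lists -/
theorem EE_swap {ν : Measure ℂ} [SigmaFinite ν] (a b : ℕ) (g : List ℂ → List ℂ → ℝ≥0∞)
    (hg : Measurable fun p : (Fin a → ℂ) × (Fin b → ℂ) => g (List.ofFn p.1) (List.ofFn p.2)) :
    EE ν a (fun l₁ => EE ν b (g l₁)) = EE ν b (fun l₂ => EE ν a (fun l₁ => g l₁ l₂)) := by
  have h1 : ∀ s : Fin a → ℂ, EE ν b (g (List.ofFn s)) =
      ∫⁻ t : Fin b → ℂ, g (List.ofFn s) (List.ofFn t) ∂(Measure.pi fun _ => ν) := fun s =>
    (lintegral_ofFn b (g (List.ofFn s)) (hg.comp (measurable_const.prodMk measurable_id))).symm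
  have h2 : ∀ t : Fin b → ℂ, EE ν a (fun l₁ => g l₁ (List.ofFn t)) =
      ∫⁻ s : Fin a → ℂ, g (List.ofFn s) (List.ofFn t) ∂(Measure.pi fun _ => ν) := fun t =>
    (lintegral_ofFn a (fun l₁ => g l₁ (List.ofFn t))
      (hg.comp (measurable_id.prodMk measurable_const))).symm
  have m1 : Measurable fun s : Fin a → ℂ => EE ν b (g (List.ofFn s)) := by
    simp_rw [h1]
    exact hg.lintegral_prod_right'
  have m2 : Measurable fun t : Fin b → ℂ => EE ν a (fun l₁ => g l₁ (List.ofFn t)) := by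
    simp_rw [h2]
    exact hg.lintegral_prod_left'
  rw [← lintegral_ofFn a (fun l₁ => EE ν b (g l₁)) m1,
    ← lintegral_ofFn b (fun l₂ => EE ν a (fun l₁ => g l₁ l₂)) m2]
  simp_rw [h1, h2]
  exact lintegral_lintegral_swap hg.aemeasurable

theorem event_meas (T : ℂ[X]) (ε R : ℝ) (n j : ℕ) (hj : j ≤ n) (w : ℂ) :
    (Measure.pi fun _ : Fin n => nu ε) {s | run T ((List.ofFn s).take j)
      (run T ((List.ofFn s).drop j) w) ∉ Kl T ε R} = Q T ε R n w := by
  have hc : Continuous fun s : Fin n → ℂ =>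
      run T ((List.ofFn s).take j) (run T ((List.ofFn s).drop j) w) :=
    (cont_take T n j).comp (((cont_drop T n j).comp
      (continuous_const.prodMk continuous_id)).prodMk continuous_id)
  have hind : Measurable ((Kl T ε R)ᶜ.indicator (1 : ℂ → ℝ≥0∞)) :=
    measurable_one.indicator (Kl_meas T ε R).compl
  have hm : MeasurableSet {s : Fin n → ℂ | run T ((List.ofFn s).take j)
      (run T ((List.ofFn s).drop j) w) ∉ Kl T ε R} := (hc.measurable (Kl_meas T ε R)).compl
  have h1 : (Measure.pi fun _ : Fin n => nu ε) {s | run T ((List.ofFn s).take j)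
      (run T ((List.ofFn s).drop j) w) ∉ Kl T ε R} =
      EE (nu ε) n (fun l => (Kl T ε R)ᶜ.indicator 1 (run T (l.take j) (run T (l.drop j) w))) := by
    rw [← lintegral_ofFn n _ (hind.comp hc.measurable), ← lintegral_indicator_one hm]
    congr 1
  rw [h1]
  obtain ⟨b, rfl⟩ : ∃ b, n = j + b := ⟨n - j, by omega⟩
  rw [EE_append]
  have h2 : EE (nu ε) j (fun l₁ => EE (nu ε) b (fun l₂ => (Kl T ε R)ᶜ.indicator 1
      (run T ((l₁ ++ l₂).take j) (run T ((l₁ ++ l₂).drop j) w)))) =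
      EE (nu ε) j (fun l₁ => EE (nu ε) b (fun l₂ => (Kl T ε R)ᶜ.indicator 1
        (run T l₁ (run T l₂ w)))) := by
    apply EE_congr
    intro l₁ hl₁
    congr 1
    funext l₂
    rw [List.take_left' hl₁, List.drop_left' hl₁]
  rw [h2, EE_swap, Q, add_comm j b, EE_append]
  · congr 1
    funext l₂
    congr 1
    funext l₁
    rw [run_append]
  · apply hind.comp
    have c1 : Continuous fun p : (Fin j → ℂ) × (Fin b → ℂ) =>
        run T (List.ofFn p.1) (run T (List.ofFn p.2) w) :=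
      (run_cont T j).comp (((run_cont T b).comp
        (continuous_const.prodMk continuous_snd)).prodMk continuous_fst)
    exact c1.measurable

/-- The bound for the measure of the bad kicks. -/
theorem main (T : ℂ[X]) (hT : 2 ≤ T.natDegree) (ε : ℝ) (hε : 0 < ε) :
    ∃ K θ : ℝ, 0 < K ∧ 0 < θ ∧ θ < 1 ∧ ∀ n : ℕ,
      volume {s : Fin n → ℂ | (∀ i, ‖s i‖ < ε) ∧
        ¬ ((∀ c : ℂ, (derivative (pert T (List.ofFn s))).eval c = 0 →
            Esc (pert T (List.ofFn s)) c ∨ Att (pert T (List.ofFn s)) c) ∧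
          (NoSink T → ∀ c : ℂ, (derivative (pert T (List.ofFn s))).eval c = 0 →
            Esc (pert T (List.ofFn s)) c))} ≤
        ENNReal.ofReal (K * θ ^ n) * volume {s : Fin n → ℂ | ∀ i, ‖s i‖ < ε} := by
  obtain ⟨R, hR1, hR⟩ := exists_radius T hT ε
  obtain ⟨K, θ, hK, hθ, hθ1, hQ⟩ := exp_bound (T := T) hε hR1 hR
  have hdT : derivative T ≠ 0 := by
    intro h
    have := derivative_eq_zero.1 h
    omega
  set Cr : Finset ℂ := (derivative T).roots.toFinset with hCr
  have hmemCr : ∀ w : ℂ, (derivative T).eval w = 0 → w ∈ Cr := by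
    intro w hw
    rw [hCr, Multiset.mem_toFinset, mem_roots hdT]
    exact hw
  -- a constant absorbing the factor `n`
  obtain ⟨M, hM, hMn⟩ : ∃ M : ℝ, 0 < M ∧ ∀ n : ℕ, (n : ℝ) * √θ ^ n ≤ M := by
    have h1 : Tendsto (fun n : ℕ => (n : ℝ) * √θ ^ n) atTop (𝓝 0) :=
      tendsto_self_mul_const_pow_of_abs_lt_one (by
        rw [abs_of_nonneg (Real.sqrt_nonneg _), Real.sqrt_lt' one_pos]; simpa using hθ1)
    obtain ⟨M, hM⟩ := h1.bddAbove_range
    refine ⟨max M 1, by positivity, fun n => (hM ⟨n, rfl⟩).trans (le_max_left _ _)⟩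
  refine ⟨K * M * (Cr.card + 1), √θ, by positivity, by positivity, ?_, fun n => ?_⟩
  · rw [Real.sqrt_lt' one_pos]; simpa using hθ1
  set P : Measure (Fin n → ℂ) := Measure.pi fun _ : Fin n => nu ε with hP
  have hPv : P = volume.restrict (univ.pi fun _ : Fin n => ball (0 : ℂ) ε) := by
    rw [hP, volume_pi, Measure.restrict_pi_pi]
    rfl
  have hset : {s : Fin n → ℂ | ∀ i, ‖s i‖ < ε} = univ.pi fun _ : Fin n => ball (0 : ℂ) ε := by
    ext s; simp
  have hmass : volume {s : Fin n → ℂ | ∀ i, ‖s i‖ < ε} = mass ε ^ n := by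
    rw [hset, ← Measure.restrict_apply_univ, ← hPv, hP, Measure.pi_univ]
    simp [mass]
  have hmeasS : MeasurableSet (univ.pi fun _ : Fin n => ball (0 : ℂ) ε) :=
    MeasurableSet.univ_pi fun _ => measurableSet_ball
  have hsub : {s : Fin n → ℂ | (∀ i, ‖s i‖ < ε) ∧
        ¬ ((∀ c : ℂ, (derivative (pert T (List.ofFn s))).eval c = 0 →
            Esc (pert T (List.ofFn s)) c ∨ Att (pert T (List.ofFn s)) c) ∧
          (NoSink T → ∀ c : ℂ, (derivative (pert T (List.ofFn s))).eval c = 0 →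
            Esc (pert T (List.ofFn s)) c))} ⊆
      (⋃ j ∈ Finset.range n, ⋃ w ∈ Cr, {s : Fin n → ℂ | run T ((List.ofFn s).take j)
        (run T ((List.ofFn s).drop j) w) ∉ Kl T ε R}) ∩ univ.pi fun _ : Fin n => ball (0 : ℂ) ε := by
    rintro s ⟨hs, hbad⟩
    refine ⟨?_, by rw [← hset]; exact hs⟩
    by_contra hcon
    apply hbad
    apply det hε hR1 hR
    · intro t ht
      obtain ⟨i, rfl⟩ := (List.mem_ofFn' s t).1 ht
      exact hs i
    · intro j hj w hw
      rw [List.length_ofFn] at hj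
      by_contra hnot
      apply hcon
      simp only [mem_iUnion]
      exact ⟨j, Finset.mem_range.2 hj, w, hmemCr w hw, hnot⟩
  calc volume _ ≤ volume ((⋃ j ∈ Finset.range n, ⋃ w ∈ Cr, {s : Fin n → ℂ |
        run T ((List.ofFn s).take j) (run T ((List.ofFn s).drop j) w) ∉ Kl T ε R}) ∩
        univ.pi fun _ : Fin n => ball (0 : ℂ) ε) := measure_mono hsub
    _ = P (⋃ j ∈ Finset.range n, ⋃ w ∈ Cr, {s : Fin n → ℂ |
        run T ((List.ofFn s).take j) (run T ((List.ofFn s).drop j) w) ∉ Kl T ε R}) := by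
      rw [hPv, Measure.restrict_apply' hmeasS]
    _ ≤ ∑ j ∈ Finset.range n, P (⋃ w ∈ Cr, {s : Fin n → ℂ |
        run T ((List.ofFn s).take j) (run T ((List.ofFn s).drop j) w) ∉ Kl T ε R}) :=
      measure_biUnion_finset_le _ _
    _ ≤ ∑ j ∈ Finset.range n, ∑ w ∈ Cr, P {s : Fin n → ℂ |
        run T ((List.ofFn s).take j) (run T ((List.ofFn s).drop j) w) ∉ Kl T ε R} :=
      Finset.sum_le_sum fun j _ => measure_biUnion_finset_le _ _
    _ ≤ ∑ j ∈ Finset.range n, ∑ w ∈ Cr, ENNReal.ofReal (K * θ ^ n) * mass ε ^ n := by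
      apply Finset.sum_le_sum
      intro j hj
      apply Finset.sum_le_sum
      intro w _
      rw [hP, event_meas T ε R n j (Finset.mem_range.1 hj).le w]
      exact hQ n w
    _ = ENNReal.ofReal (n * Cr.card * (K * θ ^ n)) * mass ε ^ n := by
      rw [Finset.sum_const, Finset.sum_const, Finset.card_range, smul_smul, nsmul_eq_mul,
        ← ENNReal.ofReal_natCast (n * Cr.card), Nat.cast_mul, ← mul_assoc,
        ← ENNReal.ofReal_mul (by positivity)]
    _ ≤ ENNReal.ofReal (K * M * (Cr.card + 1) * √θ ^ n) * mass ε ^ n := by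
      gcongr ENNReal.ofReal ?_ * _
      have h1 : θ ^ n = √θ ^ n * √θ ^ n := by
        rw [← mul_pow, Real.mul_self_sqrt hθ.le]
      rw [h1]
      have h2 := hMn n
      have h3 : 0 ≤ √θ ^ n := by positivity
      calc (n : ℝ) * Cr.card * (K * (√θ ^ n * √θ ^ n))
          = (n * √θ ^ n) * (Cr.card * K * √θ ^ n) := by ring
        _ ≤ M * (Cr.card * K * √θ ^ n) := by gcongr
        _ ≤ M * ((Cr.card + 1) * K * √θ ^ n) := by gcongr; linarith
        _ = K * M * (Cr.card + 1) * √θ ^ n := by ring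
    _ = _ := by rw [hmass]

end Pool.Agent.Y334.NH
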